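import Mathlib
import Pool.Agent.Helper4.AR.Main

/-!
# The bases of a solution of the Fermat-Catalan equation satisfy no small algebraic relation

Let `x ^ p + y ^ q = z ^ r` in coprime positive integers. We prove: for every `D ≥ 1`, `0 < ε ≤ 1` and `H`
only finitely many value triples `(x ^ p, y ^ q, z ^ r)` come from solutions for which there are positive
integers `i`, `j`, `k`, `M` and a form `P ∈ ℤ[X, Y, Z]` of degree at most `D` such that

* `P(x ^ i, y ^ j, z ^ k) = 0` and `P` does not vanish at the points `(1, 0, 0)`, `(0, 1, 0)`, `(0, 0, 1)`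
  (so `P` contains the monomials `X ^ d`, `Y ^ d`, `Z ^ d`, where `d` is the degree),
* `x ^ i, y ^ j, z ^ k ≤ M` and the coefficients of `P` are at most `max (H, M ^ (ε ^ 2 / (400 (D + 1))))`,
* `s = ⌊p / i⌋ + ⌊q / j⌋ + ⌊r / k⌋` is at least `100 (D + 1) ^ 3 / ε` and
  `M ^ ((1 + ε) s) ≤ (x ^ p y ^ q) ^ 2`.

The last condition says that the exponents are large and the sizes are balanced: if `x ^ p`, `y ^ q`, `z ^ r`
are of similar size `T` and `x ^ i`, `y ^ j`, `z ^ k` are of similar size `M`, then
`M ^ s ≈ T ^ 3` and `(x ^ p y ^ q) ^ 2 ≈ T ^ 4`. For `i = j = k = 1` the theorem is about homogeneous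
relations `P(x, y, z) = 0` between the bases. Since `i`, `j`, `k` are free it also covers weighted
homogeneous relations, and so the values `x = f(u, w)`, `y = g(u, w)`, `z = h(u, w)` of pairwise coprime
binary forms of bounded degrees (eliminate `u`, `w`).

The exponent `ε ^ 2 / (400 (D + 1))` has the right order in `D`: by the pigeonhole principle every
triple `(x, y, z)` satisfies a homogeneous relation of degree `D` with coefficients at most
`C(D) M ^ (2 / (D + 3))`. Some lower bound for `s` in terms of `D` is needed: for `p = q = r ≤ D` there is the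
relation `X ^ p + Y ^ p - Z ^ p`.

Proof. (1) `P` may be replaced by a prime factor through the point; its coefficients are bounded by
Mahler's measure and Kronecker's substitution. (2) If `∂P / ∂Y` vanishes at the point `(X, Y, Z) =
(x ^ i, y ^ j, z ^ k)`, then the resultant of `P` and `∂P / ∂Y` shows that `X` and `Z` are small.
(3) Let `a = ⌊p / i⌋`, `b = ⌊q / j⌋`, `c = ⌊r / k⌋`. Siegel's lemma gives forms `F`, `G`, `H` with small
coefficients of degrees `N - a`, `N - b`, `N - c`, where `2 N` is a little larger than `a + b + c`, such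
that `P` divides `F X ^ a + G Y ^ b + H Z ^ c`. (4) Apply the derivation
`P_X ∂_Y - P_Y ∂_X`, which kills `P`, several times and evaluate at the point. Comparison with the given
solution and coprimality show `x ^ p y ^ q ≤ Θ M ^ (N + small)`, unless certain
determinants vanish. (5) If they all vanish, then the Wronskian of `F X ^ a` and `G Y ^ b` along the curve
vanishes to a high order at the point. It is divisible by `X ^ (a - 1) Y ^ (b - 1) Z ^ c` modulo
`P`, so the theorem of Bezout (proved with linear algebra) shows that it is zero, and then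
`F X ^ a = κ G Y ^ b` modulo `P`, which is impossible since `N < a + b`. (6) The exponents are
at most a power of `log M` (linear forms in two logarithms, starting library), so factorials and
powers of `N` do no harm, and bounded bases give finitely many value triples.
-/

set_option autoImplicit false

namespace Pool.Agent.Results.MP_509488_nt.AlgebraicRelations

/-- `x ^ p + y ^ q = z ^ r` in positive integers with `gcd (x, y, z) = 1` and positive exponents with
`1 / p + 1 / q + 1 / r ≤ 1` -/
def Solution (x y z p q r : ℕ) : Prop :=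
  0 < x ∧ 0 < y ∧ 0 < z ∧ Nat.gcd x (Nat.gcd y z) = 1 ∧ 0 < p ∧ 0 < q ∧ 0 < r ∧
    (1 : ℚ) / p + 1 / q + 1 / r ≤ 1 ∧ x ^ p + y ^ q = z ^ r

/-- `P` is a form in `X 0`, `X 1`, `X 2` of degree at most `D` with integer coefficients of absolute value
at most `B` that does not vanish at `(1, 0, 0)`, `(0, 1, 0)`, `(0, 0, 1)` -/
def SmallForm (D : ℕ) (B : ℝ) (P : MvPolynomial (Fin 3) ℤ) : Prop :=
  (∃ d ≤ D, P.IsHomogeneous d) ∧ (∀ l : Fin 3, MvPolynomial.eval (Pi.single l (1 : ℤ)) P ≠ 0) ∧
    ∀ m, |((P.coeff m : ℤ) : ℝ)| ≤ B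

/-- **Only finitely many solutions with large exponents have bases with a small algebraic relation of
bounded degree.** -/
theorem result (D : ℕ) (ε H : ℝ) (hD : 1 ≤ D) (hε : 0 < ε) (hε1 : ε ≤ 1) :
    {v : ℕ × ℕ × ℕ | ∃ (x y z p q r i j k M : ℕ) (P : MvPolynomial (Fin 3) ℤ),
      Solution x y z p q r ∧ 0 < i ∧ 0 < j ∧ 0 < k ∧ x ^ i ≤ M ∧ y ^ j ≤ M ∧ z ^ k ≤ M ∧
      SmallForm D (max H ((M : ℝ) ^ (ε ^ 2 / (400 * (D + 1 : ℝ))))) P ∧
      MvPolynomial.eval ![(x : ℤ) ^ i, (y : ℤ) ^ j, (z : ℤ) ^ k] P = 0 ∧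
      100 * (D + 1 : ℝ) ^ 3 ≤ ε * ((p / i + q / j + r / k : ℕ) : ℝ) ∧
      (M : ℝ) ^ ((1 + ε) * ((p / i + q / j + r / k : ℕ) : ℝ)) ≤ ((x : ℝ) ^ p * (y : ℝ) ^ q) ^ 2 ∧
      v = (x ^ p, y ^ q, z ^ r)}.Finite := by
  refine (Pool.Agent.Helper4.AR.main hD hε hε1 H).subset ?_
  rintro v ⟨x, y, z, p, q, r, i, j, k, M, P, hs, hi, hj, hk, hx, hy, hz, ⟨⟨d, hd, hP⟩, hNV, hco⟩,
    hroot, hR, hF, rfl⟩
  exact ⟨x, y, z, p, q, r, i, j, k, M, d, P, hs, hi, hj, hk, hx, hy, hz, hP, hd, hNV, hco, hroot, hR,
    hF, rfl⟩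

end Pool.Agent.Results.MP_509488_nt.AlgebraicRelations
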