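import Mathlib
import Pool.Agent.Helper4.PL.Fin

/-!
# The bases of a solution of the Fermat-Catalan equation have no small linear relation

Let `x ^ p + y ^ q = z ^ r` in coprime positive integers and let `a x ^ i + b y ^ j + c z ^ k = 0` with
nonzero integers `a`, `b`, `c` and positive exponents `i`, `j`, `k`, and let `T` be the maximum of
`|a| x ^ i`, `|b| y ^ j`, `|c| z ^ k`. We prove (`Pool.Agent.Helper4.PL.ineq`) for ALL solutions, with
`s = ⌊p / i⌋ + ⌊q / j⌋ + ⌊r / k⌋`,

`(x ^ p y ^ q) ^ 2 ≤ 4 ^ s T ^ (s + 2) (x ^ (p mod i) y ^ (q mod j) z ^ (r mod k)) ^ 2`,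

and deduce that for every `ε > 0` only finitely many solutions have a relation with
`T ^ ((1 + ε) (s + 2)) (x ^ (p mod i) y ^ (q mod j) z ^ (r mod k)) ^ 2 ≤ (x ^ p y ^ q) ^ 2`.

For `i = j = k = 1` the relation is `a x + b y + c z = 0` and the condition is
`T ^ ((1 + ε) (p + q + r + 2)) ≤ (x ^ p y ^ q) ^ 2`. If the exponents are large and nearly equal and the
bases have nearly equal logarithms, then the condition holds for all relations with coefficients
`|a|, |b|, |c| ≤ max (x, y, z) ^ (1 / 3 - ε')`. (By the pigeonhole principle every triple has a relation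
with coefficients at most `2 max (x, y, z) ^ (1 / 2)`.) So there are only finitely many such solutions in
the union of all planes of height at most `max (x, y, z) ^ (1 / 3 - ε')`, for example with `x + y = 2 z`.

Proof. If the inequality is not trivial, then the exponents `P = ⌊p / i⌋`, `Q = ⌊q / j⌋`, `R = ⌊r / k⌋`
satisfy a strict triangle inequality. For `X + Y + Z = 0` the integrals of
`(t - t₁) ^ α (t - t₂) ^ β (t - t₃) ^ γ` between the points `t₁, t₂, t₃` with the differences `X, Y, Z`
give explicit identities `X ^ (β + γ + 1) C + Y ^ (α + γ + 1) A + Z ^ (α + β + 1) B = 0` with small integral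
forms `A`, `B`, `C` of degrees `β`, `γ`, `α` (Pade approximants). With `X = c z ^ k`, `Y = a x ^ i`,
`Z = b y ^ j` and `x ^ p = - y ^ q` modulo `z ^ r` one finds that a power of `z` divides the integer
`b ^ Q x ^ (p mod i) B - a ^ P y ^ (q mod j) A`, which is small. For one of two consecutive
approximants it is not zero: the signs of the integrals show that the determinant is not zero.
Finally, finitely many bases give finitely many value triples (starting library).
-/

set_option autoImplicit false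

namespace Pool.Agent.Results.MP_509488_nt.SmallLinearRelations

/-- `x ^ p + y ^ q = z ^ r` in positive integers with `gcd (x, y, z) = 1` and positive exponents with
`1 / p + 1 / q + 1 / r ≤ 1` -/
def Solution (x y z p q r : ℕ) : Prop :=
  0 < x ∧ 0 < y ∧ 0 < z ∧ Nat.gcd x (Nat.gcd y z) = 1 ∧ 0 < p ∧ 0 < q ∧ 0 < r ∧
    (1 : ℚ) / p + 1 / q + 1 / r ≤ 1 ∧ x ^ p + y ^ q = z ^ r

/-- **Only finitely many solutions have bases with a small linear relation.** -/
theorem result (ε : ℝ) (hε : 0 < ε) :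
    {v : ℕ × ℕ × ℕ | ∃ x y z p q r i j k T : ℕ, ∃ a b c : ℤ, Solution x y z p q r ∧
      0 < i ∧ 0 < j ∧ 0 < k ∧ a ≠ 0 ∧ b ≠ 0 ∧ c ≠ 0 ∧
      a * (x : ℤ) ^ i + b * (y : ℤ) ^ j + c * (z : ℤ) ^ k = 0 ∧
      |a| * (x : ℤ) ^ i ≤ T ∧ |b| * (y : ℤ) ^ j ≤ T ∧ |c| * (z : ℤ) ^ k ≤ T ∧
      (T : ℝ) ^ ((1 + ε) * ((p / i + q / j + r / k + 2 : ℕ) : ℝ)) *
        ((x : ℝ) ^ (p % i) * (y : ℝ) ^ (q % j) * (z : ℝ) ^ (r % k)) ^ 2 ≤
          ((x : ℝ) ^ p * (y : ℝ) ^ q) ^ 2 ∧
      v = (x ^ p, y ^ q, z ^ r)}.Finite :=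
  Pool.Agent.Helper4.PL.fin hε

end Pool.Agent.Results.MP_509488_nt.SmallLinearRelations
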