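import Mathlib
import Pool.Agent.Helper4.PC.Final

/-!
# The Fermat-Catalan conjecture for bases in arbitrary polynomial families

For every `K` there is `δ > 0` such that for every `H` only finitely many value triples
`(x ^ p, y ^ q, z ^ r)` come from solutions of `x ^ p + y ^ q = z ^ r` in coprime positive integers with
`1 / p + 1 / q + 1 / r ≤ 1` (the three exponents are free, prime or not) whose bases are the absolute
values `x = |f(t)|`, `y = |g(t)|`, `z = |h(t)|` of nonconstant integer polynomials of degree at most
`K` at some integer `t`, with coefficients of absolute value at most `max (H, |t| ^ δ)`. There is no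
other condition on the polynomials, on their leading or constant coefficients, or on the exponents.

In particular (fixed `f`, `g`, `h`) the Fermat-Catalan conjecture holds along every polynomial curve
`t ↦ (f(t), g(t), h(t))` with nonconstant `f`, `g`, `h`; and (`K = 1`) only finitely many solutions
have bases within `z ^ δ` of each other, or bases `a t + a'`, `b t + b'`, `c t + c'` with
`|a|, |b|, |c|, |a'|, |b'|, |c'| ≤ t ^ δ`.

Proof. (1) Linear forms in two `2`-adic logarithms (starting library) bound the exponents by a power of
`log t`. (2) Let `p` be the largest exponent and suppose that it is at least `1188 K ^ 4` (the other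
cases are the same). After a change of variable `f` is monic. By Siegel's lemma there are integer
polynomials `A`, `B` with small coefficients, of degree a little more than half of `M deg f`, such that
`f ^ M` divides `A g ^ q - B h ^ r`, where `M ≤ p` is nearly `p / (2 K ^ 2)`. Apply the differential
operator `g h d/dX` `j` times: `f ^ (M - j)` divides `A_j g ^ q - B_j h ^ r`. At `t` the congruence
`y ^ q = ± z ^ r` modulo `x ^ p` shows that `x ^ (M - j)` divides `± A_j(t) - B_j(t)`. A zero estimate
(the Wronskian of `A g ^ q` and `B h ^ r` is divisible by high powers of `f` and of `X - t`) shows that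
this integer is not zero for some small `j`; it is too small to be divisible by `x ^ (M - j)`. (3) If all
exponents are less than `1188 K ^ 4`, then `f ^ p + g ^ q - h ^ r` has small coefficients and vanishes at
`t`, so it is zero, in contradiction to the theorem of Mason and Stothers.
-/

set_option autoImplicit false

namespace Pool.Agent.Results.MP_509488_nt.UniformPolynomialBases

open Polynomial

/-- `x ^ p + y ^ q = z ^ r` in positive integers with `gcd (x, y, z) = 1` and positive exponents with
`1 / p + 1 / q + 1 / r ≤ 1` -/
def Solution (x y z p q r : ℕ) : Prop :=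
  0 < x ∧ 0 < y ∧ 0 < z ∧ Nat.gcd x (Nat.gcd y z) = 1 ∧ 0 < p ∧ 0 < q ∧ 0 < r ∧
    (1 : ℚ) / p + 1 / q + 1 / r ≤ 1 ∧ x ^ p + y ^ q = z ^ r

/-- `f` is a nonconstant integer polynomial of degree at most `K` whose coefficients have absolute
value at most `H` -/
def SmallPolynomial (K : ℕ) (H : ℝ) (f : ℤ[X]) : Prop :=
  0 < f.natDegree ∧ f.natDegree ≤ K ∧ ∀ i, |(f.coeff i : ℝ)| ≤ H

/-- **The Fermat-Catalan conjecture for bases in polynomial families, uniformly.** -/
theorem result (K : ℕ) : ∃ δ : ℝ, 0 < δ ∧ ∀ H : ℝ,
    {v : ℕ × ℕ × ℕ | ∃ (t : ℤ) (f g h : ℤ[X]) (x y z p q r : ℕ), Solution x y z p q r ∧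
      SmallPolynomial K (max H (|(t : ℝ)| ^ δ)) f ∧ SmallPolynomial K (max H (|(t : ℝ)| ^ δ)) g ∧
      SmallPolynomial K (max H (|(t : ℝ)| ^ δ)) h ∧ |f.eval t| = x ∧ |g.eval t| = y ∧
      |h.eval t| = z ∧ v = (x ^ p, y ^ q, z ^ r)}.Finite :=
  Pool.Agent.Helper4.PC.uniform K

end Pool.Agent.Results.MP_509488_nt.UniformPolynomialBases
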